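import Mathlib

/-!
# Graphs without long induced cycles

`E` is a graph and `R` an oriented graph whose arcs are not edges of `E`, with three conditions on
four vertices. Then `E` has no induced cycles with four or more vertices.
-/

set_option autoImplicit false

namespace Pool.Agent.Zk14.ID

variable {V : Type}

/-- The conditions on four vertices. -/
structure Loc (E R : V → V → Prop) : Prop where
  sy : ∀ x y, E x y → E y x
  ir : ∀ x y, E x y → x ≠ y
  asy : ∀ x y, R x y → ¬ R y x
  c4 : ∀ a b c d, a ≠ c → b ≠ d → E a b → E b c → E c d → E d a → E a c ∨ E b d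
  p4 : ∀ a b c d, a ≠ c → a ≠ d → b ≠ d → E a b → E b c → E c d → ¬ E a c → ¬ E a d →
    ¬ E b d → (R a c ∧ R a d) ∨ (R d a ∧ R d b)
  st : ∀ a b c d, a ≠ c → a ≠ d → b ≠ d → c ≠ d → E a b → E b c → ¬ E a d → R a c → R b d →
    R c d → R a d

variable {E R : V → V → Prop}

/-- A cycle with `k` vertices, as a periodic sequence: two terms are adjacent in `E` if and only
if they are neighbours. -/
structure Cyc (E : V → V → Prop) (k : ℕ) (q : ℕ → V) : Prop where
  per : ∀ i, q (i + k) = q i
  ne : ∀ i d, 0 < d → d < k → q i ≠ q (i + d)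
  adj : ∀ i d, 0 < d → d < k → (E (q i) (q (i + d)) ↔ d = 1 ∨ d + 1 = k)

theorem Cyc.per' {k : ℕ} {q : ℕ → V} (h : Cyc E k q) (i m : ℕ) : q (i + k * m) = q i := by
  induction m with
  | zero => simp
  | succ m ih => rw [Nat.mul_succ, ← add_assoc, h.per, ih]

variable (hE : Loc E R)

include hE in
theorem run {k : ℕ} {q : ℕ → V} (h : Cyc E k q) (hk : 5 ≤ k)
    (h2 : ∀ i, R (q i) (q (i + 2))) (h3 : ∀ i, R (q i) (q (i + 3))) : False := by
  have key : ∀ j, ∀ i, 2 ≤ j → j + 2 ≤ k → R (q i) (q (i + j)) := by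
    intro j
    induction j using Nat.strong_induction_on with
    | _ j ih =>
      intro i hj hjk
      rcases (by omega : j = 2 ∨ j = 3 ∨ 4 ≤ j) with rfl | rfl | hj4
      · exact h2 i
      · exact h3 i
      · have e1 := ih (j - 1) (by omega) (i + 1) (by omega) (by omega)
        have e2 := ih (j - 2) (by omega) (i + 2) (by omega) (by omega)
        rw [show i + 1 + (j - 1) = i + j by omega] at e1
        rw [show i + 2 + (j - 2) = i + j by omega] at e2
        have n1 := (h.adj i 1 (by omega) (by omega)).2 (Or.inl rfl)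
        have n2 := (h.adj (i + 1) 1 (by omega) (by omega)).2 (Or.inl rfl)
        have d1 := h.ne (i + 1) (j - 1) (by omega) (by omega)
        have d2 := h.ne (i + 2) (j - 2) (by omega) (by omega)
        rw [show i + 1 + (j - 1) = i + j by omega] at d1
        rw [show i + 2 + (j - 2) = i + j by omega] at d2
        have g1 : ¬ E (q i) (q (i + j)) := by
          rw [h.adj i j (by omega) (by omega)]; omega
        exact hE.st _ _ _ _ (h.ne i 2 (by omega) (by omega)) (h.ne i j (by omega) (by omega)) d1 d2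
          n1 n2 g1 (h2 i) e1 e2
  have e1 := key (k - 2) 0 (by omega) (by omega)
  have e2 := h2 (0 + (k - 2))
  rw [show 0 + (k - 2) + 2 = 0 + k by omega, h.per] at e2
  exact hE.asy _ _ e1 e2

include hE in
/-- the reversed cycle -/
theorem Cyc.rev {k : ℕ} {q : ℕ → V} (h : Cyc E k q) (hk : 2 ≤ k) :
    Cyc E k (fun i => q ((k - 1) * i)) := by
  have key : ∀ i d, 0 < d → d < k →
      q ((k - 1) * i) = q ((k - 1) * (i + d) + d) := by
    intro i d h1 h2
    have : (k - 1) * (i + d) + d = (k - 1) * i + k * d := by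
      obtain ⟨m, rfl⟩ : ∃ m, k = m + 1 := ⟨k - 1, by omega⟩
      simp only [Nat.add_sub_cancel]
      ring
    rw [this, h.per']
  refine ⟨fun i => ?_, fun i d h1 h2 => ?_, fun i d h1 h2 => ?_⟩
  · have : (k - 1) * (i + k) = (k - 1) * i + k * (k - 1) := by ring
    change q ((k - 1) * (i + k)) = q ((k - 1) * i)
    rw [this, h.per']
  · change q ((k - 1) * i) ≠ q ((k - 1) * (i + d))
    rw [key i d h1 h2]
    exact (h.ne _ d h1 h2).symm
  · change E (q ((k - 1) * i)) (q ((k - 1) * (i + d))) ↔ _
    rw [key i d h1 h2]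
    rw [← h.adj ((k - 1) * (i + d)) d h1 h2]
    exact ⟨hE.sy _ _, hE.sy _ _⟩

include hE in
/-- There are no cycles with at least five vertices. -/
theorem no_cyc {k : ℕ} {q : ℕ → V} (h : Cyc E k q) (hk : 5 ≤ k) : False := by
  have hp : ∀ i, (R (q i) (q (i + 2)) ∧ R (q i) (q (i + 3))) ∨
      (R (q (i + 3)) (q i) ∧ R (q (i + 3)) (q (i + 1))) := by
    intro i
    have a1 := (h.adj i 1 (by omega) (by omega)).2 (Or.inl rfl)
    have a2 := (h.adj (i + 1) 1 (by omega) (by omega)).2 (Or.inl rfl)
    have a3 := (h.adj (i + 2) 1 (by omega) (by omega)).2 (Or.inl rfl)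
    have b1 : ¬ E (q i) (q (i + 2)) := by
      rw [h.adj i 2 (by omega) (by omega)]; omega
    have b2 : ¬ E (q i) (q (i + 3)) := by
      rw [h.adj i 3 (by omega) (by omega)]; omega
    have b3 : ¬ E (q (i + 1)) (q (i + 1 + 2)) := by
      rw [h.adj (i + 1) 2 (by omega) (by omega)]; omega
    exact hE.p4 _ _ _ _ (h.ne i 2 (by omega) (by omega)) (h.ne i 3 (by omega) (by omega))
      (h.ne (i + 1) 2 (by omega) (by omega)) a1 a2 a3 b1 b2 b3
  have step : ∀ i, (R (q (i + 3)) (q i) ∧ R (q (i + 3)) (q (i + 1))) →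
      (R (q (i + 1 + 3)) (q (i + 1)) ∧ R (q (i + 1 + 3)) (q (i + 1 + 1))) := by
    intro i hi
    rcases hp (i + 1) with h1 | h1
    · exact absurd h1.1 (hE.asy _ _ hi.2)
    · exact h1
  by_cases hall : ∀ i, R (q i) (q (i + 2)) ∧ R (q i) (q (i + 3))
  · exact run hE h hk (fun i => (hall i).1) (fun i => (hall i).2)
  · push Not at hall
    obtain ⟨i0, hi0⟩ := hall
    have h0 : R (q (i0 + 3)) (q i0) ∧ R (q (i0 + 3)) (q (i0 + 1)) := by
      rcases hp i0 with h1 | h1
      · exact absurd h1.2 (hi0 h1.1)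
      · exact h1
    have hge : ∀ m, R (q (i0 + m + 3)) (q (i0 + m)) ∧ R (q (i0 + m + 3)) (q (i0 + m + 1)) := by
      intro m
      induction m with
      | zero => exact h0
      | succ m ih => exact step _ ih
    have hB : ∀ i, R (q (i + 3)) (q i) ∧ R (q (i + 3)) (q (i + 1)) := by
      intro i
      have h1 := hge (i + (k - 1) * i0)
      have e : ∀ t, q (i0 + (i + (k - 1) * i0) + t) = q (i + t) := by
        intro t
        have : i0 + (i + (k - 1) * i0) + t = (i + t) + k * i0 := by
          obtain ⟨m, rfl⟩ : ∃ m, k = m + 1 := ⟨k - 1, by omega⟩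
          simp only [Nat.add_sub_cancel]
          ring
        rw [this, h.per']
      have e0 := e 0
      rw [add_zero, add_zero] at e0
      rw [e 3, e 1, e0] at h1
      exact h1
    have hr := Cyc.rev hE h (by omega)
    have hkey : ∀ i t, t ≤ k → q ((k - 1) * i) = q ((k - 1) * (i + t) + t) := by
      intro i t ht
      have : (k - 1) * (i + t) + t = (k - 1) * i + k * t := by
        obtain ⟨m, rfl⟩ : ∃ m, k = m + 1 := ⟨k - 1, by omega⟩
        simp only [Nat.add_sub_cancel]
        ring
      rw [this, h.per']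
    refine run hE hr hk (fun i => ?_) (fun i => ?_)
    · change R (q ((k - 1) * i)) (q ((k - 1) * (i + 2)))
      rw [hkey i 2 (by omega)]
      obtain ⟨m, hm⟩ : ∃ m, q ((k - 1) * (i + 2)) = q (m + 1) ∧
          q ((k - 1) * (i + 2) + 2) = q (m + 3) := by
        refine ⟨(k - 1) * (i + 2) + (k - 1), ?_, ?_⟩
        · rw [show (k - 1) * (i + 2) + (k - 1) + 1 = (k - 1) * (i + 2) + k by omega, h.per]
        · rw [show (k - 1) * (i + 2) + (k - 1) + 3 = (k - 1) * (i + 2) + 2 + k by omega, h.per]
      rw [hm.1, hm.2]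
      exact (hB m).2
    · change R (q ((k - 1) * i)) (q ((k - 1) * (i + 3)))
      rw [hkey i 3 (by omega)]
      exact (hB _).1

end Pool.Agent.Zk14.ID
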