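import Pool.Agent.Zk14.ID.Simp
import Pool.Agent.N439.CT.Main

/-!
# Mixed colourings: arcs and undirected pairs

Every pair of vertices is an arc or an undirected pair, and arcs and undirected pairs are coloured.
If every four vertices contain two arcs of the same colour with the same tail or three undirected
pairs of the same colour forming a triangle, then the number of these triples is at least Turán's
number.
-/

set_option autoImplicit false
open Finset
open scoped Classical

namespace Pool.Agent.Zk14.ID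

variable {V : Type}

/-- `x` and `y` are different and not joined by an arc. -/
def Nn (R : V → V → Prop) (x y : V) : Prop := x ≠ y ∧ ¬ R x y ∧ ¬ R y x

theorem Nn.symm {R : V → V → Prop} {x y : V} (h : Nn R x y) : Nn R y x := ⟨h.1.symm, h.2.2, h.2.1⟩

/-- a monochromatic triple -/
def Tr (R : V → V → Prop) (col und : V → V → ℕ) (a b c : V) : Prop :=
  (Nn R a b ∧ Nn R a c ∧ Nn R b c ∧ und a b = und a c ∧ und a b = und b c) ∨
  (R a b ∧ R a c ∧ col a b = col a c) ∨ (R b a ∧ R b c ∧ col b a = col b c) ∨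
  (R c a ∧ R c b ∧ col c a = col c b)

/-- the undirected pairs of colour `i` -/
def Ed (R : V → V → Prop) (und : V → V → ℕ) (i : ℕ) (x y : V) : Prop := Nn R x y ∧ und x y = i

variable {R : V → V → Prop} {col und : V → V → ℕ}

section loc

variable (hR : ∀ x y, R x y → ¬ R y x) (hu : ∀ x y, und x y = und y x)

include hu in
theorem ed_symm {i : ℕ} {x y : V} (h : Ed R und i x y) : Ed R und i y x :=
  ⟨h.1.symm, (hu y x).trans h.2⟩

include hu in
theorem tr_12 {a b c : V} (h : Tr R col und a b c) : Tr R col und b a c := by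
  have e1 := hu a b
  unfold Tr at *
  rcases h with ⟨h1, h2, h3, h4, h5⟩ | h | h | ⟨h1, h2, h3⟩
  · exact Or.inl ⟨h1.symm, h3, h2, by rw [← e1]; exact h5, by rw [← e1]; exact h4⟩
  · exact Or.inr (Or.inr (Or.inl h))
  · exact Or.inr (Or.inl h)
  · exact Or.inr (Or.inr (Or.inr ⟨h2, h1, h3.symm⟩))

include hu in
theorem tr_23 {a b c : V} (h : Tr R col und a b c) : Tr R col und a c b := by
  have e1 := hu b c
  unfold Tr at *
  rcases h with ⟨h1, h2, h3, h4, h5⟩ | ⟨h1, h2, h3⟩ | h | h
  · exact Or.inl ⟨h2, h1, h3.symm, h4.symm, by rw [← e1, ← h4]; exact h5⟩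
  · exact Or.inr (Or.inl ⟨h2, h1, h3.symm⟩)
  · exact Or.inr (Or.inr (Or.inr h))
  · exact Or.inr (Or.inr (Or.inl h))

/-- two undirected pairs of colour `i` -/
theorem tr_two {i : ℕ} {a b c : V} (h1 : Ed R und i a b) (h2 : Ed R und i b c)
    (h3 : ¬ Ed R und i a c) : ¬ Tr R col und a b c := by
  rintro (⟨g1, g2, g3, g4, g5⟩ | ⟨g1, g2, g3⟩ | ⟨g1, g2, g3⟩ | ⟨g1, g2, g3⟩)
  · exact h3 ⟨g2, g4.symm.trans h1.2⟩
  · exact h1.1.2.1 g1
  · exact h1.1.2.2 g1
  · exact h2.1.2.2 g2

/-- one undirected pair of colour `i` -/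
theorem tr_one {i : ℕ} {a b d : V} (h1 : Ed R und i a b) (h2 : ¬ Ed R und i a d)
    (h : Tr R col und a b d) : R d a ∧ R d b := by
  rcases h with ⟨g1, g2, g3, g4, g5⟩ | ⟨g1, g2, g3⟩ | ⟨g1, g2, g3⟩ | ⟨g1, g2, g3⟩
  · exact absurd ⟨g2, g4.symm.trans h1.2⟩ h2
  · exact absurd g1 h1.1.2.1
  · exact absurd g1 h1.1.2.2
  · exact ⟨g1, g2⟩

include hR hu in
theorem loc (hC : ∀ a b c d : V, a ≠ b → a ≠ c → a ≠ d → b ≠ c → b ≠ d → c ≠ d →
    Tr R col und a b c ∨ Tr R col und a b d ∨ Tr R col und a c d ∨ Tr R col und b c d) (i : ℕ) :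
    Loc (Ed R und i) R where
  sy x y h := ed_symm hu h
  ir x y h := h.1.1
  asy := hR
  c4 a b c d hac hbd h1 h2 h3 h4 := by
    by_contra hn
    rw [not_or] at hn
    have g1 : ¬ Ed R und i c a := fun h => hn.1 (ed_symm hu h)
    have g2 : ¬ Ed R und i d b := fun h => hn.2 (ed_symm hu h)
    rcases hC a b c d h1.1.1 hac h4.1.1.symm h2.1.1 hbd h3.1.1 with h | h | h | h
    · exact tr_two h1 h2 hn.1 h
    · exact tr_two h4 h1 g2 (tr_12 hu (tr_23 hu h))
    · exact tr_two h3 h4 g1 (tr_23 hu (tr_12 hu h))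
    · exact tr_two h2 h3 hn.2 h
  p4 a b c d hac had hbd h1 h2 h3 g1 g2 g3 := by
    rcases hC a b c d h1.1.1 hac had h2.1.1 hbd h3.1.1 with h | h | h | h
    · exact absurd h (tr_two h1 h2 g1)
    · exact Or.inr (tr_one h1 g2 h)
    · refine Or.inl (tr_one h3 (fun h' => g1 (ed_symm hu h')) (tr_23 hu (tr_12 hu h)))
    · exact absurd h (tr_two h2 h3 g3)
  st a b c d hac had hbd hcd h1 h2 g1 r1 r2 r3 := by
    have n1 : ¬ Ed R und i a c := fun h => h.1.2.1 r1
    have n2 : ¬ Ed R und i b d := fun h => h.1.2.1 r2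
    rcases hC a b c d h1.1.1 hac had h2.1.1 hbd hcd with h | h | h | h
    · exact absurd h (tr_two h1 h2 n1)
    · exact absurd (tr_one h1 g1 h).2 (hR _ _ r2)
    · rcases h with ⟨k1, k2, k3, k4, k5⟩ | ⟨k1, k2, k3⟩ | ⟨k1, k2, k3⟩ | ⟨k1, k2, k3⟩
      · exact absurd r1 k1.2.1
      · exact k2
      · exact absurd k1 (hR _ _ r1)
      · exact absurd k2 (hR _ _ r3)
    · exact absurd (tr_one h2 n2 h).1 (hR _ _ r2)

end loc

variable [Fintype V]

/-- The triples of the mixed colouring: the triangles of undirected pairs of the same colour and the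
triples in which a vertex sends arcs of the same colour to the other two. -/
noncomputable def fam (R : V → V → Prop) (col und : V → V → ℕ) : Finset (Finset V) :=
  (univ.powersetCard 3).filter fun s : Finset V =>
    (∃ i, ∀ x ∈ s, ∀ y ∈ s, x ≠ y → ¬ R x y ∧ und x y = i) ∨
    ∃ x ∈ s, ∃ y ∈ s, ∃ z ∈ s, y ≠ z ∧ R x y ∧ R x z ∧ col x y = col x z

theorem mem_fam {s : Finset V} : s ∈ fam R col und ↔ s ∈ (univ : Finset V).powersetCard 3 ∧
    ((∃ i, ∀ x ∈ s, ∀ y ∈ s, x ≠ y → ¬ R x y ∧ und x y = i) ∨
    ∃ x ∈ s, ∃ y ∈ s, ∃ z ∈ s, y ≠ z ∧ R x y ∧ R x z ∧ col x y = col x z) := by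
  unfold fam
  rw [mem_filter]

theorem eq_three {W : Type} [DecidableEq W] {s : Finset W} (hs : s.card = 3) {x y z : W}
    (hx : x ∈ s) (hy : y ∈ s) (hz : z ∈ s) (hxy : x ≠ y) (hxz : x ≠ z) (hyz : y ≠ z) :
    s = {x, y, z} := by
  symm
  apply eq_of_subset_of_card_le
  · intro w hw
    simp only [mem_insert, mem_singleton] at hw
    rcases hw with rfl | rfl | rfl <;> assumption
  · rw [hs, card_insert_of_notMem, card_insert_of_notMem, card_singleton] <;>
      simp [hxy, hxz, hyz]

theorem tr_of_mem (hR : ∀ x y, R x y → ¬ R y x) {a b c : V} (hab : a ≠ b) (hac : a ≠ c)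
    (hbc : b ≠ c) (h : ({a, b, c} : Finset V) ∈ fam R col und) : Tr R col und a b c := by
  unfold fam at h
  rcases (mem_filter.1 h).2 with ⟨i, hi⟩ | ⟨x, hx, y, hy, z, hz, hyz, h1, h2, h3⟩
  · have ha : a ∈ ({a, b, c} : Finset V) := by simp
    have hb : b ∈ ({a, b, c} : Finset V) := by simp
    have hc : c ∈ ({a, b, c} : Finset V) := by simp
    have q1 := hi a ha b hb hab
    have q2 := hi a ha c hc hac
    have q3 := hi b hb c hc hbc
    have q1' := hi b hb a ha hab.symm
    have q2' := hi c hc a ha hac.symm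
    have q3' := hi c hc b hb hbc.symm
    exact Or.inl ⟨⟨hab, q1.1, q1'.1⟩, ⟨hac, q2.1, q2'.1⟩, ⟨hbc, q3.1, q3'.1⟩,
      q1.2.trans q2.2.symm, q1.2.trans q3.2.symm⟩
  · have hxy : x ≠ y := by
      rintro rfl
      exact hR _ _ h1 h1
    have hxz : x ≠ z := by
      rintro rfl
      exact hR _ _ h2 h2
    simp only [mem_insert, mem_singleton] at hx hy hz
    unfold Tr
    rcases hx with rfl | rfl | rfl <;> rcases hy with rfl | rfl | rfl <;>
      rcases hz with rfl | rfl | rfl <;>
      first
      | exact absurd rfl hxy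
      | exact absurd rfl hxz
      | exact absurd rfl hyz
      | exact Or.inr (Or.inl ⟨h1, h2, h3⟩)
      | exact Or.inr (Or.inl ⟨h2, h1, h3.symm⟩)
      | exact Or.inr (Or.inr (Or.inl ⟨h1, h2, h3⟩))
      | exact Or.inr (Or.inr (Or.inl ⟨h2, h1, h3.symm⟩))
      | exact Or.inr (Or.inr (Or.inr ⟨h1, h2, h3⟩))
      | exact Or.inr (Or.inr (Or.inr ⟨h2, h1, h3.symm⟩))

/-- **Mixed colourings.** -/
theorem mixed (hR : ∀ x y, R x y → ¬ R y x) (hu : ∀ x y, und x y = und y x)
    (hcov : ∀ Q : Finset V, Q.card = 4 → ∃ s ⊆ Q, s ∈ fam R col und) :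
    Pool.Agent.N439.CT.turan (Fintype.card V) ≤ (fam R col und).card := by
  have hC : ∀ a b c d : V, a ≠ b → a ≠ c → a ≠ d → b ≠ c → b ≠ d → c ≠ d →
      Tr R col und a b c ∨ Tr R col und a b d ∨ Tr R col und a c d ∨ Tr R col und b c d := by
    intro a b c d hab hac had hbc hbd hcd
    obtain ⟨s, hs, hsf⟩ := hcov {a, b, c, d} (by
      rw [card_insert_of_notMem, card_insert_of_notMem, card_insert_of_notMem, card_singleton] <;>
        simp [hab, hac, had, hbc, hbd, hcd])
    have hs3 : s.card = 3 := (mem_powersetCard.1 (mem_filter.1 hsf).1).2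
    by_cases ha : a ∈ s
    · by_cases hb : b ∈ s
      · by_cases hc : c ∈ s
        · left
          rw [eq_three hs3 ha hb hc hab hac hbc] at hsf
          exact tr_of_mem hR hab hac hbc hsf
        · right; left
          have hd : d ∈ s := by
            by_contra hd
            have : s ⊆ {a, b} := by
              intro w hw
              have := hs hw
              simp only [mem_insert, mem_singleton] at this ⊢
              rcases this with rfl | rfl | rfl | rfl
              · exact Or.inl rfl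
              · exact Or.inr rfl
              · exact absurd hw hc
              · exact absurd hw hd
            have := card_le_card this
            have := card_le_two (a := a) (b := b)
            omega
          rw [eq_three hs3 ha hb hd hab had hbd] at hsf
          exact tr_of_mem hR hab had hbd hsf
      · right; right; left
        have hcd' : c ∈ s ∧ d ∈ s := by
          have h1 : s ⊆ {a, c, d} := by
            intro w hw
            have := hs hw
            simp only [mem_insert, mem_singleton] at this ⊢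
            rcases this with rfl | rfl | rfl | rfl
            · exact Or.inl rfl
            · exact absurd hw hb
            · exact Or.inr (Or.inl rfl)
            · exact Or.inr (Or.inr rfl)
          have h2 : s = {a, c, d} := eq_of_subset_of_card_le h1 (by
            rw [hs3]; exact card_le_three)
          rw [h2]
          simp
        rw [eq_three hs3 ha hcd'.1 hcd'.2 hac had hcd] at hsf
        exact tr_of_mem hR hac had hcd hsf
    · right; right; right
      have h1 : s ⊆ {b, c, d} := by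
        intro w hw
        have := hs hw
        simp only [mem_insert, mem_singleton] at this ⊢
        rcases this with rfl | rfl | rfl | rfl
        · exact absurd hw ha
        · exact Or.inl rfl
        · exact Or.inr (Or.inl rfl)
        · exact Or.inr (Or.inr rfl)
      have h2 : s = {b, c, d} := eq_of_subset_of_card_le h1 (by
        rw [hs3]; exact card_le_three)
      rw [h2] at hsf
      exact tr_of_mem hR hbc hbd hcd hsf
  have hord : ∀ i : ℕ, ∃ ρ : V → ℕ, Set.InjOn ρ (univ : Finset V) ∧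
      ∀ v ∈ (univ : Finset V), ∀ x ∈ (univ : Finset V), ∀ z ∈ (univ : Finset V), ρ v < ρ x →
        ρ v < ρ z → x ≠ z → Ed R und i v x → Ed R und i v z → Ed R und i x z := fun i =>
    order (loc hR hu hC i) _ univ rfl
  choose ρ hρ1 hρ2 using hord
  set R' : V → V → Bool := fun x y =>
    decide (R x y ∨ (Nn R x y ∧ ρ (und x y) x < ρ (und x y) y)) with hR'
  set col' : V → V → ℕ := fun x y => if R x y then 2 * col x y else 2 * und x y + 1 with hcol'
  have r1 : ∀ x y, R' x y = true ↔ (R x y ∨ (Nn R x y ∧ ρ (und x y) x < ρ (und x y) y)) := by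
    intro x y
    rw [hR']
    simp only [decide_eq_true_eq]
  have k1 : ∀ x y, R' x y = true → R' y x = false := by
    intro x y h
    rw [← Bool.not_eq_true, r1]
    rw [r1] at h
    rcases h with h | h
    · rintro (h' | h')
      · exact hR x y h h'
      · exact h'.1.2.2 h
    · rintro (h' | h')
      · exact h.1.2.2 h'
      · have e := hu x y
        have h2 := h'.2
        rw [← e] at h2
        omega
  have k2 : ∀ x y, x ≠ y → R' x y = true ∨ R' y x = true := by
    intro x y hxy
    rw [r1, r1]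
    by_cases h1 : R x y
    · exact Or.inl (Or.inl h1)
    · by_cases h2 : R y x
      · exact Or.inr (Or.inl h2)
      · have hn : Nn R x y := ⟨hxy, h1, h2⟩
        have hne : ρ (und x y) x ≠ ρ (und x y) y := fun h =>
          hxy (hρ1 _ (by simp) (by simp) h)
        rcases lt_or_gt_of_ne hne with h | h
        · exact Or.inl (Or.inr ⟨hn, h⟩)
        · refine Or.inr (Or.inr ⟨hn.symm, ?_⟩)
          rw [hu y x]
          exact h
  set κ : ℕ := univ.sup fun p : V × V => col' p.1 p.2 with hκ
  have k3 : ∀ x y, col' x y < κ + 2 := by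
    intro x y
    have := le_sup (f := fun p : V × V => col' p.1 p.2) (mem_univ (x, y))
    simp only at this
    rw [← hκ] at this
    omega
  have k4 : Pool.Agent.N439.CT.Cov R' col' (univ : Finset V) := by
    intro Q _ hQ
    obtain ⟨s, hsQ, hs⟩ := hcov Q hQ
    have hs3 : s.card = 3 := (mem_powersetCard.1 (mem_filter.1 hs).1).2
    rcases (mem_filter.1 hs).2 with ⟨i, hi⟩ | ⟨x, hx, y, hy, z, hz, hyz, h1, h2, h3⟩
    · obtain ⟨v, hv, hmin⟩ := exists_min_image s (ρ i) (card_pos.1 (by omega))
      have h2 : (s.erase v).card = 2 := by rw [card_erase_of_mem hv, hs3]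
      obtain ⟨y, z, hyz, hyze⟩ := card_eq_two.1 h2
      have hy : y ∈ s.erase v := by rw [hyze]; simp
      have hz : z ∈ s.erase v := by rw [hyze]; simp
      have key : ∀ w ∈ s.erase v, R' v w = true ∧ col' v w = 2 * i + 1 := by
        intro w hw
        obtain ⟨hwv, hws⟩ := mem_erase.1 hw
        have e1 := hi v hv w hws hwv.symm
        have e2 := hi w hws v hv hwv
        have hlt : ρ i v < ρ i w := lt_of_le_of_ne (hmin w hws) fun h =>
          hwv.symm (hρ1 i (by simp) (by simp) h)
        refine ⟨(r1 v w).2 (Or.inr ⟨⟨hwv.symm, e1.1, e2.1⟩, ?_⟩), ?_⟩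
        · rw [e1.2]
          exact hlt
        · rw [hcol']
          simp only
          rw [if_neg e1.1, e1.2]
      exact ⟨v, hsQ hv, y, hsQ (mem_of_mem_erase hy), z, hsQ (mem_of_mem_erase hz), hyz,
        (key y hy).1, (key z hz).1, (key y hy).2.trans (key z hz).2.symm⟩
    · refine ⟨x, hsQ hx, y, hsQ hy, z, hsQ hz, hyz, (r1 x y).2 (Or.inl h1),
        (r1 x z).2 (Or.inl h2), ?_⟩
      rw [hcol']
      simp only
      rw [if_pos h1, if_pos h2, h3]
  have k5 := Pool.Agent.N439.CT.tournament k1 k2 κ k3 k4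
  rw [card_univ] at k5
  refine k5.trans (card_le_card ?_)
  intro e he
  rw [Pool.Agent.N439.CT.mem_ch] at he
  obtain ⟨he3, x, hx, y, hy, z, hz, hyz, h1, h2, h3⟩ := he
  have hc3 := (mem_powersetCard.1 he3).2
  refine mem_filter.2 ⟨he3, ?_⟩
  rw [r1] at h1 h2
  rw [hcol'] at h3
  simp only at h3
  by_cases d1 : R x y
  · by_cases d2 : R x z
    · rw [if_pos d1, if_pos d2] at h3
      exact Or.inr ⟨x, hx, y, hy, z, hz, hyz, d1, d2, by omega⟩
    · rw [if_pos d1, if_neg d2] at h3
      omega
  · by_cases d2 : R x z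
    · rw [if_neg d1, if_pos d2] at h3
      omega
    · rw [if_neg d1, if_neg d2] at h3
      left
      rcases h1 with h1 | ⟨n1, h1⟩
      · exact absurd h1 d1
      rcases h2 with h2 | ⟨n2, h2⟩
      · exact absurd h2 d2
      have e : und x z = und x y := by omega
      rw [e] at h2
      have n3 := hρ2 (und x y) x (mem_univ _) y (mem_univ _) z (mem_univ _) h1 h2 hyz
        ⟨n1, rfl⟩ ⟨n2, e⟩
      have n3' := ed_symm hu n3
      refine ⟨und x y, ?_⟩
      have hes := eq_three hc3 hx hy hz n1.1 n2.1 hyz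
      intro a ha b hb hab
      rw [hes] at ha hb
      simp only [mem_insert, mem_singleton] at ha hb
      rcases ha with rfl | rfl | rfl <;> rcases hb with rfl | rfl | rfl
      · exact absurd rfl hab
      · exact ⟨n1.2.1, rfl⟩
      · exact ⟨n2.2.1, e⟩
      · exact ⟨n1.2.2, hu _ _⟩
      · exact absurd rfl hab
      · exact ⟨n3.1.2.1, n3.2⟩
      · exact ⟨n2.2.2, (hu _ _).trans e⟩
      · exact ⟨n3'.1.2.1, n3'.2⟩
      · exact absurd rfl hab

end Pool.Agent.Zk14.ID
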