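import Pool.Agent.Zk14.ID.Mix

/-!
# Turán's construction as a mixed colouring

The computations are those of the starting file ColouredTournaments.
-/

set_option autoImplicit false
open Finset
open scoped Classical

namespace Pool.Agent.Zk14.ID.Sharp

/-- Turán's number `f(n)`: `f(3s) = s(s-1)(2s-1)`, `f(3s+1) = s^2(2s-1)`, `f(3s+2) = s^2(2s+1)`.
Turán's construction has `C(n,3) - f(n)` edges. -/
def turan (n : ℕ) : ℕ :=
  if n % 3 = 0 then (n / 3) * (n / 3 - 1) * (2 * (n / 3) - 1)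
  else if n % 3 = 1 then (n / 3) ^ 2 * (2 * (n / 3) - 1)
  else (n / 3) ^ 2 * (2 * (n / 3) + 1)

/-- the residue class `i` mod 3 -/
noncomputable def cls (n i : ℕ) : Finset (Fin n) := univ.filter fun x : Fin n => (x : ℕ) % 3 = i % 3

theorem card_cls (n i : ℕ) : (cls n i).card = n / 3 + if i % 3 < n % 3 then 1 else 0 := by
  have h1 : (cls n i).card = Nat.count (fun x => x % 3 = i % 3) n := by
    rw [Nat.count_eq_card_filter_range]
    refine card_bij (fun x _ => (x : ℕ)) ?_ ?_ ?_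
    · intro x hx
      exact mem_filter.2 ⟨mem_range.2 x.2, (mem_filter.1 hx).2⟩
    · intro x _ y _ h
      exact Fin.ext h
    · intro b hb
      exact ⟨⟨b, mem_range.1 (mem_filter.1 hb).1⟩, mem_filter.2 ⟨mem_univ _, (mem_filter.1 hb).2⟩,
        rfl⟩
  rw [h1]
  exact Nat.count_modEq_card n (r := 3) (by norm_num) i

theorem choose_bound (n : ℕ) : ∑ i ∈ range 3, ((cls n i).card.choose 3 +
    (cls n i).card * (cls n (i + 1)).card.choose 2) = turan n := by
  obtain ⟨s, r, hr, hs⟩ : ∃ s r, r < 3 ∧ n = 3 * s + r := ⟨n / 3, n % 3, by omega, by omega⟩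
  have h1 : n / 3 = s := by omega
  have h2 : n % 3 = r := by omega
  have two_choose : ∀ k : ℕ, 2 * (k + 1).choose 2 = (k + 1) * k := by
    intro k
    rw [Nat.choose_two_right, mul_comm]
    exact Nat.div_mul_cancel (even_iff_two_dvd.1 (Nat.even_mul_pred_self (k + 1)))
  have six_choose : ∀ k : ℕ, 6 * (k + 2).choose 3 = (k + 2) * (k + 1) * k := by
    intro k
    induction k with
    | zero => rfl
    | succ k ih =>
      rw [Nat.choose_succ_succ' (k + 2) 2, mul_add, ih]
      have := two_choose (k + 1)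
      nlinarith [this]
  rw [sum_range_succ, sum_range_succ, sum_range_succ, sum_range_zero]
  simp only [card_cls, h1, h2]
  unfold turan
  rw [h1, h2]
  have e3 : (0 : ℕ) % 3 = 0 := rfl
  have e4 : (0 + 1 : ℕ) % 3 = 1 := rfl
  have e6 : (1 + 1 : ℕ) % 3 = 2 := rfl
  simp only [e3, e4, e6, zero_add]
  rcases Nat.eq_zero_or_pos s with rfl | hs0
  · interval_cases r <;> decide
  obtain ⟨k, rfl⟩ : ∃ k, s = k + 1 := ⟨s - 1, by omega⟩
  rcases Nat.eq_zero_or_pos k with rfl | hk0
  · interval_cases r <;> decide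
  obtain ⟨l, rfl⟩ : ∃ l, k = l + 1 := ⟨k - 1, by omega⟩
  have a1 := six_choose l
  have a2 := two_choose (l + 1)
  have a3 := six_choose (l + 1)
  have a4 := two_choose (l + 2)
  have : (6 : ℤ) ≠ 0 := by norm_num
  interval_cases r
  · have e9 : 2 * (l + 1 + 1) - 1 = 2 * l + 3 := by omega
    have e10 : l + 1 + 1 - 1 = l + 1 := by omega
    norm_num
    rw [e9]
    zify at a1 a2 ⊢
    apply mul_left_cancel₀ this
    linear_combination 3 * a1 + 9 * (l + 2) * a2
  · have e9 : 2 * (l + 1 + 1) - 1 = 2 * l + 3 := by omega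
    norm_num
    rw [e9]
    zify at a1 a2 a3 a4 ⊢
    apply mul_left_cancel₀ this
    linear_combination 2 * a1 + a3 + 3 * (l + 3) * a2 + 3 * (l + 2) * a2 + 3 * (l + 2) * a4
  · norm_num
    zify at a1 a2 a3 a4 ⊢
    apply mul_left_cancel₀ this
    linear_combination a1 + 2 * a3 + 3 * (l + 3) * a2 + 3 * (l + 3) * a4 + 3 * (l + 2) * a4


/-- Turán's oriented graph: all arcs from each residue class mod 3 to the next one -/
def tR (n : ℕ) (x y : Fin n) : Prop := (y : ℕ) % 3 = ((x : ℕ) + 1) % 3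

theorem tR_oriented (n : ℕ) (x y : Fin n) (h : tR n x y) : ¬ tR n y x := by
  unfold tR at *
  omega

/-- one colour -/
def one (n : ℕ) (_ _ : Fin n) : ℕ := 0

theorem fam_sub (n : ℕ) : fam (tR n) (one n) (one n) ⊆
    (range 3).biUnion (fun i => (cls n i).powersetCard 3 ∪
      ((cls n i) ×ˢ ((cls n (i + 1)).powersetCard 2)).image (fun p => insert p.1 p.2)) := by
  intro s hs
  obtain ⟨hs3, hse⟩ := mem_fam.1 hs
  have hcard := (mem_powersetCard.1 hs3).2
  rw [mem_biUnion]
  rcases hse with ⟨i, hi⟩ | ⟨x, hx, y, hy, z, hz, hyz, h1, h2, h3⟩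
  · obtain ⟨x, hx⟩ : s.Nonempty := card_pos.1 (by omega)
    refine ⟨(x : ℕ) % 3, mem_range.2 (Nat.mod_lt _ (by norm_num)), mem_union.2 (Or.inl ?_)⟩
    refine mem_powersetCard.2 ⟨fun w hw => mem_filter.2 ⟨mem_univ _, ?_⟩, hcard⟩
    by_cases hwx : w = x
    · rw [hwx]
      omega
    · have e1 := (hi w hw x hx hwx).1
      have e2 := (hi x hx w hw (Ne.symm hwx)).1
      unfold tR at e1 e2
      omega
  · have hxy : x ≠ y := by
      rintro rfl
      exact tR_oriented n _ _ h1 h1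
    have hxz : x ≠ z := by
      rintro rfl
      exact tR_oriented n _ _ h2 h2
    have hs := eq_three hcard hx hy hz hxy hxz hyz
    unfold tR at h1 h2
    refine ⟨(x : ℕ) % 3, mem_range.2 (Nat.mod_lt _ (by norm_num)), mem_union.2 (Or.inr ?_)⟩
    refine mem_image.2 ⟨(x, {y, z}), mem_product.2 ⟨mem_filter.2 ⟨mem_univ _, by simp⟩,
      mem_powersetCard.2 ⟨fun w hw => mem_filter.2 ⟨mem_univ _, ?_⟩, ?_⟩⟩, hs.symm⟩
    · simp only [mem_insert, mem_singleton] at hw
      rcases hw with rfl | rfl <;> omega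
    · rw [card_insert_of_notMem (by simpa using hyz), card_singleton]

theorem fam_card_le (n : ℕ) : (fam (tR n) (one n) (one n)).card ≤ turan n := by
  have h1 := card_le_card (fam_sub n)
  have h2 := h1.trans (card_biUnion_le.trans (sum_le_sum fun i _ =>
    (card_union_le _ _).trans (Nat.add_le_add_left card_image_le _)))
  simp only [card_powersetCard, card_product] at h2
  rwa [choose_bound] at h2

theorem covers (n : ℕ) (S : Finset (Fin n)) (hS : S.card = 4) :
    ∃ s ⊆ S, s ∈ fam (tR n) (one n) (one n) := by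
  obtain ⟨x, hx, y, hy, hxy, hmod⟩ : ∃ x ∈ S, ∃ y ∈ S, x ≠ y ∧ (x : ℕ) % 3 = (y : ℕ) % 3 := by
    have hcard : (range 3).card < S.card := by
      rw [hS, card_range]
      norm_num
    exact exists_ne_map_eq_of_card_lt_of_maps_to hcard
      (fun z _ => mem_coe.2 (mem_range.2 (Nat.mod_lt (z : ℕ) (by norm_num))))
  have h2 : ((S.erase x).erase y).card = 2 := by
    rw [card_erase_of_mem (mem_erase.2 ⟨hxy.symm, hy⟩), card_erase_of_mem hx, hS]
  obtain ⟨c, d, hcd, he⟩ := card_eq_two.1 h2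
  have hc : c ∈ (S.erase x).erase y := by
    rw [he]
    simp
  have hd : d ∈ (S.erase x).erase y := by
    rw [he]
    simp
  rw [mem_erase, mem_erase] at hc hd
  have mk : ∀ a ∈ S, ∀ b ∈ S, ∀ c ∈ S, a ≠ b → a ≠ c → b ≠ c →
      ({a, b, c} : Finset (Fin n)) ⊆ S ∧ ({a, b, c} : Finset (Fin n)) ∈ univ.powersetCard 3 := by
    intro a ha b hb c hc h1 h2 h3
    refine ⟨?_, mem_powersetCard.2 ⟨subset_univ _, ?_⟩⟩
    · intro w hw
      simp only [mem_insert, mem_singleton] at hw
      rcases hw with rfl | rfl | rfl <;> assumption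
    · rw [card_insert_of_notMem, card_insert_of_notMem, card_singleton] <;> simp [h1, h2, h3]
  -- a third vertex of the same class, or a vertex of the previous class
  have key : ∀ c ∈ S, c ≠ x → c ≠ y → (c : ℕ) % 3 ≠ ((x : ℕ) + 1) % 3 →
      ∃ s ⊆ S, s ∈ fam (tR n) (one n) (one n) := by
    intro c hcS hcx hcy hne
    obtain ⟨m1, m2⟩ := mk c hcS x hx y hy hcx hcy hxy
    refine ⟨{c, x, y}, m1, mem_fam.2 ⟨m2, ?_⟩⟩
    by_cases hs : (c : ℕ) % 3 = (x : ℕ) % 3
    · left
      refine ⟨0, fun a ha b hb _ => ⟨?_, rfl⟩⟩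
      have hcl : ∀ w ∈ ({c, x, y} : Finset (Fin n)), (w : ℕ) % 3 = (x : ℕ) % 3 := by
        intro w hw
        simp only [mem_insert, mem_singleton] at hw
        rcases hw with rfl | rfl | rfl
        · exact hs
        · rfl
        · exact hmod.symm
      have e1 := hcl a ha
      have e2 := hcl b hb
      unfold tR
      omega
    · right
      refine ⟨c, by simp, x, by simp, y, by simp, hxy, ?_, ?_, rfl⟩ <;>
      · unfold tR
        omega
  by_cases l1 : (c : ℕ) % 3 = ((x : ℕ) + 1) % 3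
  · by_cases l2 : (d : ℕ) % 3 = ((x : ℕ) + 1) % 3
    · obtain ⟨m1, m2⟩ := mk x hx c hc.2.2 d hd.2.2 hc.2.1.symm hd.2.1.symm hcd
      exact ⟨{x, c, d}, m1, mem_fam.2 ⟨m2, Or.inr ⟨x, by simp, c, by simp, d, by simp, hcd,
        l1, l2, rfl⟩⟩⟩
    · exact key d hd.2.2 hd.2.1 hd.1 l2
  · exact key c hc.2.2 hc.2.1 hc.1 l1

end Pool.Agent.Zk14.ID.Sharp
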