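import Pool.Agent.Zk14.ID.Cyc

/-!
# A vertex whose non-neighbours are pairwise non-adjacent
-/

set_option autoImplicit false
open Finset
open scoped Classical

namespace Pool.Agent.Zk14.ID

variable {V : Type}

/-- A sequence of `L + 1` vertices from `a` to `b`, consecutive ones adjacent in `E`, with all
inner vertices in `C`. -/
def Pth (E : V → V → Prop) (C : Finset V) (a b : V) (L : ℕ) : Prop :=
  ∃ p : ℕ → V, p 0 = a ∧ p L = b ∧ (∀ i, 0 < i → i < L → p i ∈ C) ∧
    ∀ i, i < L → E (p i) (p (i + 1))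

variable {E R : V → V → Prop}

/-- A shortest sequence is an induced path. -/
theorem shortest {C : Finset V} {a b : V} {L : ℕ} {p : ℕ → V} (h0 : p 0 = a)
    (hL : p L = b) (hC : ∀ i, 0 < i → i < L → p i ∈ C) (hp : ∀ i, i < L → E (p i) (p (i + 1)))
    (hmin : ∀ M, M < L → ¬ Pth E C a b M) :
    ∀ i j, i < j → j ≤ L → p i ≠ p j ∧ (E (p i) (p j) ↔ j = i + 1) := by
  intro i j hij hj
  constructor
  · intro he
    refine hmin (L - (j - i)) (by omega) ⟨fun k => if k ≤ i then p k else p (k + (j - i)),
      ?_, ?_, ?_, ?_⟩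
    · simp [h0]
    · by_cases hjL : j = L
      · have e : L - (j - i) = i := by omega
        simp only [e, le_refl, if_true]
        rw [he, hjL, hL]
      · have e : ¬ (L - (j - i) ≤ i) := by omega
        simp only [e, if_false]
        rw [show L - (j - i) + (j - i) = L by omega, hL]
    · intro k hk1 hk2
      dsimp only
      split_ifs with h
      · exact hC k hk1 (by omega)
      · exact hC _ (by omega) (by omega)
    · intro k hk
      dsimp only
      rcases lt_trichotomy k i with h | h | h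
      · rw [if_pos (by omega), if_pos (by omega)]
        exact hp k (by omega)
      · subst h
        rw [if_pos le_rfl, if_neg (by omega), he, show k + 1 + (j - k) = j + 1 by omega]
        exact hp j (by omega)
      · rw [if_neg (by omega), if_neg (by omega), show k + 1 + (j - i) = k + (j - i) + 1 by omega]
        exact hp _ (by omega)
  · constructor
    · intro hn
      by_contra hne
      refine hmin (L - (j - i - 1)) (by omega) ⟨fun k => if k ≤ i then p k else p (k + (j - i - 1)),
        ?_, ?_, ?_, ?_⟩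
      · simp [h0]
      · have e : ¬ (L - (j - i - 1) ≤ i) := by omega
        simp only [e, if_false]
        rw [show L - (j - i - 1) + (j - i - 1) = L by omega, hL]
      · intro k hk1 hk2
        dsimp only
        split_ifs with h
        · exact hC k hk1 (by omega)
        · exact hC _ (by omega) (by omega)
      · intro k hk
        dsimp only
        rcases lt_trichotomy k i with h | h | h
        · rw [if_pos (by omega), if_pos (by omega)]
          exact hp k (by omega)
        · subst h
          rw [if_pos le_rfl, if_neg (by omega), show k + 1 + (j - k - 1) = j by omega]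
          exact hn
        · rw [if_neg (by omega), if_neg (by omega),
            show k + 1 + (j - i - 1) = k + (j - i - 1) + 1 by omega]
          exact hp _ (by omega)
    · rintro rfl
      exact hp i (by omega)

variable (hE : Loc E R)

include hE in
/-- An induced path together with a vertex joined exactly to its ends is a cycle. -/
theorem cyc_of_path {L : ℕ} {p : ℕ → V} {y : V} (hL : 2 ≤ L)
    (hp : ∀ i j, i < j → j ≤ L → p i ≠ p j ∧ (E (p i) (p j) ↔ j = i + 1))
    (hy : ∀ i, i ≤ L → p i ≠ y ∧ (E (p i) y ↔ (i = 0 ∨ i = L))) :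
    Cyc E (L + 2) (fun i => if i % (L + 2) ≤ L then p (i % (L + 2)) else y) := by
  set F : ℕ → V := fun r => if r ≤ L then p r else y with hF
  have hF1 : ∀ a b, a < b → b < L + 2 → F a ≠ F b ∧ (E (F a) (F b) ↔
      (b = a + 1 ∨ (a = 0 ∧ b = L + 1))) := by
    intro a b hab hb
    simp only [hF]
    rw [if_pos (by omega : a ≤ L)]
    by_cases hbL : b ≤ L
    · rw [if_pos hbL]
      refine ⟨(hp a b hab hbL).1, ?_⟩
      rw [(hp a b hab hbL).2]
      omega
    · rw [if_neg hbL]
      refine ⟨(hy a (by omega)).1, ?_⟩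
      rw [(hy a (by omega)).2]
      omega
  have hmod : ∀ i d, d < L + 2 → (i + d) % (L + 2) =
      if i % (L + 2) + d < L + 2 then i % (L + 2) + d else i % (L + 2) + d - (L + 2) := by
    intro i d hd
    have h1 : i % (L + 2) < L + 2 := Nat.mod_lt _ (by omega)
    rw [Nat.add_mod, Nat.mod_eq_of_lt hd]
    split_ifs with h
    · exact Nat.mod_eq_of_lt h
    · rw [Nat.mod_eq_sub_mod (by omega), Nat.mod_eq_of_lt (by omega)]
  have hG : ∀ i d, 0 < d → d < L + 2 → F (i % (L + 2)) ≠ F ((i + d) % (L + 2)) ∧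
      (E (F (i % (L + 2))) (F ((i + d) % (L + 2))) ↔ (d = 1 ∨ d + 1 = L + 2)) := by
    intro i d h1 h2
    have h3 : i % (L + 2) < L + 2 := Nat.mod_lt _ (by omega)
    have h4 := hmod i d h2
    generalize i % (L + 2) = a at h3 h4 ⊢
    generalize (i + d) % (L + 2) = b at h4 ⊢
    split_ifs at h4 with h5
    · obtain ⟨g1, g2⟩ := hF1 a b (by omega) (by omega)
      refine ⟨g1, ?_⟩
      rw [g2]
      omega
    · obtain ⟨g1, g2⟩ := hF1 b a (by omega) (by omega)
      refine ⟨g1.symm, ?_⟩
      rw [show E (F a) (F b) ↔ E (F b) (F a) from ⟨hE.sy _ _, hE.sy _ _⟩, g2]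
      omega
  refine ⟨fun i => ?_, fun i d h1 h2 => (hG i d h1 h2).1, fun i d h1 h2 => (hG i d h1 h2).2⟩
  rw [Nat.add_mod_right]



include hE in
/-- Two non-neighbours `s`, `t` of `y` which are connected by a path of non-adjacent pairs, with
inner vertices adjacent to `y`, are non-adjacent. -/
theorem clique {C : Finset V} {s t y : V} {L : ℕ} (hst : s ≠ t) (hs : E s y) (ht : E t y)
    (hyC : ∀ c ∈ C, c ≠ y ∧ ¬ E c y) (hP : Pth E C s t L) : E s t := by
  by_contra hn
  have hex : ∃ M, Pth E C s t M := ⟨L, hP⟩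
  obtain ⟨p, p0, pM, pC, pp⟩ := Nat.find_spec hex
  set M := Nat.find hex with hM
  have hsh := shortest p0 pM pC pp (fun K hK => Nat.find_min hex hK)
  have hM2 : 2 ≤ M := by
    by_contra h
    rcases (by omega : M = 0 ∨ M = 1) with h0 | h1
    · rw [h0] at pM
      exact hst (p0.symm.trans pM)
    · have := pp 0 (by omega)
      rw [h1] at pM
      rw [p0, zero_add, pM] at this
      exact hn this
  have hy : ∀ i, i ≤ M → p i ≠ y ∧ (E (p i) y ↔ (i = 0 ∨ i = M)) := by
    intro i hi
    rcases (by omega : i = 0 ∨ i = M ∨ (0 < i ∧ i < M)) with rfl | rfl | ⟨h1, h2⟩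
    · rw [p0]
      exact ⟨hE.ir _ _ hs, iff_of_true hs (Or.inl rfl)⟩
    · rw [pM]
      exact ⟨hE.ir _ _ ht, iff_of_true ht (Or.inr rfl)⟩
    · obtain ⟨g1, g2⟩ := hyC _ (pC i h1 h2)
      exact ⟨g1, iff_of_false g2 (by omega)⟩
  have hcyc := cyc_of_path hE hM2 hsh hy
  rcases (by omega : M = 2 ∨ 3 ≤ M) with h2 | h3
  · -- a 4-cycle
    have a1 := (hsh 0 1 (by omega) (by omega)).2.2 rfl
    have a2 := (hsh 1 2 (by omega) (by omega)).2.2 rfl
    have e2 : p 2 = t := by rw [← h2]; exact pM
    rw [p0] at a1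
    rw [e2] at a2
    rcases hE.c4 _ _ _ _ hst (hy 1 (by omega)).1 a1 a2 ht (hE.sy _ _ hs) with h | h
    · exact hn h
    · have := ((hy 1 (by omega)).2.1 h)
      omega
  · exact no_cyc hE hcyc (by omega)

/-- connected sets of the graph of non-adjacent pairs -/
def Conn (E : V → V → Prop) (C : Finset V) : Prop :=
  ∀ a ∈ C, ∀ b ∈ C, Relation.ReflTransGen (fun x y => E x y ∧ x ∈ C ∧ y ∈ C) a b

theorem path_of_rtg {C : Finset V} {a b : V}
    (h : Relation.ReflTransGen (fun x y => E x y ∧ x ∈ C ∧ y ∈ C) a b) :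
    ∃ (L : ℕ) (p : ℕ → V), p 0 = a ∧ p L = b ∧ ∀ i, i < L → E (p i) (p (i + 1)) ∧
      p i ∈ C ∧ p (i + 1) ∈ C := by
  induction h with
  | refl => exact ⟨0, fun _ => a, rfl, rfl, fun i hi => absurd hi (by omega)⟩
  | @tail b c _ hbc ih =>
    obtain ⟨L, p, h0, hL, hp⟩ := ih
    refine ⟨L + 1, fun k => if k ≤ L then p k else c, by simp [h0], by simp, fun i hi => ?_⟩
    dsimp only
    rcases (by omega : i < L ∨ i = L) with h | h
    · rw [if_pos (by omega), if_pos (by omega)]
      exact hp i h
    · subst h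
      rw [if_pos le_rfl, if_neg (by omega), hL]
      exact hbc

theorem pth_of_conn {C : Finset V} (hC : Conn E C) {s t c d : V} (hc : c ∈ C) (hd : d ∈ C)
    (hs : E s c) (ht : E d t) : ∃ L, Pth E C s t L := by
  obtain ⟨L, p, h0, hL, hp⟩ := path_of_rtg (hC c hc d hd)
  have hpC : ∀ i, i ≤ L → p i ∈ C := by
    intro i hi
    rcases Nat.eq_zero_or_pos i with rfl | h
    · rw [h0]; exact hc
    · have := (hp (i - 1) (by omega)).2.2
      rwa [show i - 1 + 1 = i by omega] at this
  refine ⟨L + 2, fun k => if k = 0 then s else if k ≤ L + 1 then p (k - 1) else t, by simp, ?_,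
    fun i h1 h2 => ?_, fun i hi => ?_⟩
  · simp
  · dsimp only
    rw [if_neg (by omega), if_pos (by omega)]
    exact hpC _ (by omega)
  · dsimp only
    rcases (by omega : i = 0 ∨ (0 < i ∧ i ≤ L) ∨ i = L + 1) with h | h | h
    · subst h
      rw [if_pos rfl, if_neg (by omega), if_pos (by omega), zero_add, Nat.sub_self, h0]
      exact hs
    · rw [if_neg (by omega), if_pos (by omega), if_neg (by omega), if_pos (by omega)]
      have := (hp (i - 1) (by omega)).1
      rwa [show i - 1 + 1 = i + 1 - 1 by omega] at this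
    · subst h
      rw [if_neg (by omega), if_pos le_rfl, if_neg (by omega), if_neg (by omega),
        Nat.add_sub_cancel, hL]
      exact ht

include hE in
theorem conn_insert {C : Finset V} (hC : Conn E C) {s c : V} (hc : c ∈ C) (hs : E s c) :
    Conn E (insert s C) := by
  have hmono : ∀ {a b : V}, Relation.ReflTransGen (fun x y => E x y ∧ x ∈ C ∧ y ∈ C) a b →
      Relation.ReflTransGen (fun x y => E x y ∧ x ∈ insert s C ∧ y ∈ insert s C) a b := by
    intro a b h
    induction h with
    | refl => exact Relation.ReflTransGen.refl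
    | tail _ hbc ih => exact ih.tail ⟨hbc.1, mem_insert_of_mem hbc.2.1, mem_insert_of_mem hbc.2.2⟩
  have h1 : Relation.ReflTransGen (fun x y => E x y ∧ x ∈ insert s C ∧ y ∈ insert s C) s c :=
    Relation.ReflTransGen.single ⟨hs, mem_insert_self _ _, mem_insert_of_mem hc⟩
  have h2 : Relation.ReflTransGen (fun x y => E x y ∧ x ∈ insert s C ∧ y ∈ insert s C) c s :=
    Relation.ReflTransGen.single ⟨hE.sy _ _ hs, mem_insert_of_mem hc, mem_insert_self _ _⟩
  intro a ha b hb
  rcases mem_insert.1 ha with ha' | ha'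
  · rw [ha']
    rcases mem_insert.1 hb with hb' | hb'
    · rw [hb']
    · exact h1.trans (hmono (hC c hc b hb'))
  · rcases mem_insert.1 hb with hb' | hb'
    · rw [hb']
      exact (hmono (hC a ha' c hc)).trans h2
    · exact hmono (hC a ha' b hb')

include hE in
/-- Every nonempty set contains a vertex whose non-neighbours in the set are pairwise
non-adjacent. -/
theorem simplicial : ∀ (n : ℕ) (X : Finset V), X.card = n → X.Nonempty →
    ∃ v ∈ X, ∀ x ∈ X, ∀ z ∈ X, x ≠ z → E v x → E v z → E x z := by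
  intro n
  induction n using Nat.strong_induction_on with
  | _ n ih =>
    intro X hXn hX
    by_cases hcl : ∀ x ∈ X, ∀ z ∈ X, x ≠ z → E x z
    · obtain ⟨v, hv⟩ := hX
      exact ⟨v, hv, fun x hx z hz h _ _ => hcl x hx z hz h⟩
    push Not at hcl
    obtain ⟨a, ha, b, hb, hab, hnab⟩ := hcl
    -- a largest connected set with a vertex far from it
    set S : Finset (Finset V) := X.powerset.filter fun C => C.Nonempty ∧ Conn E C ∧
      ∃ y ∈ X, y ∉ C ∧ ∀ c ∈ C, ¬ E c y with hS
    have hSne : S.Nonempty := by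
      refine ⟨{a}, mem_filter.2 ⟨mem_powerset.2 (by simpa using ha), ⟨a, by simp⟩, ?_, b, hb, ?_,
        ?_⟩⟩
      · intro x hx y hy
        rw [mem_singleton] at hx hy
        rw [hx, hy]
      · simpa using hab.symm
      · intro c hc
        rw [mem_singleton.1 hc]
        exact hnab
    obtain ⟨C, hCS, hmax⟩ := exists_max_image S card hSne
    obtain ⟨hCX, hCne, hCc, y, hyX, hyC, hyN⟩ := mem_filter.1 hCS
    rw [mem_powerset] at hCX
    -- the far vertices
    set M : Finset V := X.filter fun m => m ∉ C ∧ ∀ c ∈ C, ¬ E c m with hMdef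
    have hyM : y ∈ M := mem_filter.2 ⟨hyX, hyC, hyN⟩
    have hMn : M.card < n := by
      rw [← hXn]
      obtain ⟨c, hc⟩ := hCne
      refine card_lt_card ((filter_subset _ _).ssubset_of_mem_notMem (hCX hc) ?_)
      intro h
      exact (mem_filter.1 h).2.1 hc
    obtain ⟨m, hm, hms⟩ := ih M.card hMn M rfl ⟨y, hyM⟩
    obtain ⟨hmX, hmC, hmN⟩ := mem_filter.1 hm
    refine ⟨m, hmX, ?_⟩
    -- neighbours of `C`
    have hfull : ∀ s ∈ X, s ∉ C → (∃ c ∈ C, E c s) → ∀ m' ∈ M, E s m' := by
      intro s hs hsC hsc m' hm'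
      obtain ⟨c, hc, hcs⟩ := hsc
      obtain ⟨hm'X, hm'C, hm'N⟩ := mem_filter.1 hm'
      by_contra hne
      have hin : insert s C ∈ S := by
        refine mem_filter.2 ⟨mem_powerset.2 (insert_subset hs hCX), ⟨s, mem_insert_self _ _⟩,
          conn_insert hE hCc hc (hE.sy _ _ hcs), m', hm'X, ?_, ?_⟩
        · intro h
          rcases mem_insert.1 h with h | h
          · rw [h] at hm'N
            exact hm'N c hc hcs
          · exact hm'C h
        · intro d hd
          rcases mem_insert.1 hd with rfl | hd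
          · exact hne
          · exact hm'N d hd
      have := hmax _ hin
      rw [card_insert_of_notMem hsC] at this
      omega
    have hN : ∀ x ∈ X, E m x → x ∈ M ∨ (x ∉ C ∧ ∃ c ∈ C, E c x) := by
      intro x hx hmx
      by_cases hxC : x ∈ C
      · exact absurd (hE.sy _ _ hmx) (hmN x hxC)
      · by_cases h : ∃ c ∈ C, E c x
        · exact Or.inr ⟨hxC, h⟩
        · push Not at h
          exact Or.inl (mem_filter.2 ⟨hx, hxC, h⟩)
    intro x hx z hz hxz hmx hmz
    rcases hN x hx hmx with hxM | ⟨hxC, c, hc, hcx⟩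
    · rcases hN z hz hmz with hzM | ⟨hzC, hzc⟩
      · exact hms x hxM z hzM hxz hmx hmz
      · exact hE.sy _ _ (hfull z hz hzC hzc x hxM)
    · rcases hN z hz hmz with hzM | ⟨hzC, d, hd, hdz⟩
      · exact hfull x hx hxC ⟨c, hc, hcx⟩ z hzM
      · obtain ⟨L, hL⟩ := pth_of_conn hCc hc hd (hE.sy _ _ hcx) hdz
        refine clique hE hxz (hE.sy _ _ hmx) (hE.sy _ _ hmz) (fun e he => ⟨?_, hmN e he⟩) hL
        rintro rfl
        exact hmC he

include hE in
/-- A perfect elimination order. -/
theorem order : ∀ (n : ℕ) (X : Finset V), X.card = n → ∃ ρ : V → ℕ, Set.InjOn ρ X ∧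
    ∀ v ∈ X, ∀ x ∈ X, ∀ z ∈ X, ρ v < ρ x → ρ v < ρ z → x ≠ z → E v x → E v z →
      E x z := by
  intro n
  induction n with
  | zero =>
    intro X hX
    rw [card_eq_zero] at hX
    subst hX
    exact ⟨fun _ => 0, by simp, fun v hv => absurd hv (notMem_empty _)⟩
  | succ n ih =>
    intro X hX
    obtain ⟨v0, hv0, hs⟩ := simplicial hE (n + 1) X hX (card_pos.1 (by omega))
    obtain ⟨ρ, hρ1, hρ2⟩ := ih (X.erase v0) (by rw [card_erase_of_mem hv0, hX]; rfl)
    refine ⟨fun v => if v = v0 then 0 else ρ v + 1, ?_, ?_⟩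
    · intro x hx y hy hxy
      dsimp only at hxy
      split_ifs at hxy with h1 h2 h2
      · rw [h1, h2]
      · exact hρ1 (by simpa [h1] using hx) (by simpa [h2] using hy) (by omega)
    · intro v hv x hx z hz h1 h2 hxz h3 h4
      dsimp only at h1 h2
      have hx0 : x ≠ v0 := by
        rintro rfl
        rw [if_pos rfl] at h1
        omega
      have hz0 : z ≠ v0 := by
        rintro rfl
        rw [if_pos rfl] at h2
        omega
      by_cases hvv : v = v0
      · subst hvv
        exact hs x hx z hz hxz h3 h4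
      · rw [if_neg hvv, if_neg hx0] at h1
        rw [if_neg hvv, if_neg hz0] at h2
        exact hρ2 v (mem_erase.2 ⟨hvv, hv⟩) x (mem_erase.2 ⟨hx0, hx⟩) z (mem_erase.2 ⟨hz0, hz⟩)
          (by omega) (by omega) hxz h3 h4

end Pool.Agent.Zk14.ID
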